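import Pool.Agent.Q98.CG.Aut

/-!
# MP_181555_al: all subgroups are congruence subgroups or not too few are not

`c(x)` and `u(x)` are the numbers of congruence and of noncongruence subgroups of index at most `x`
of `Out(F_n)`.
-/

set_option autoImplicit false

namespace Pool.Agent.Results.MP_181555_al.FewNoncongruence

open Pool.Agent.Q98.CG

/-- (1) If `Out(F_n)` has a noncongruence subgroup of index `d`, then
`c(x) ≤ u(d x) (d x) ^ ⌊log₂ d⌋` for all `x`. (2) The congruence subgroup property for `Out(F_n)`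
(as in Q1) holds if and only if for every `d ≥ 1` there is an `x` with
`u(d x) (d x) ^ ⌊log₂ d⌋ < c(x)`. -/
theorem result (n : ℕ) :
    (∀ N : Subgroup (MulAut (FreeGroup (Fin n))), (∀ g, MulAut.conj g ∈ N) → N.index ≠ 0 →
      ¬ IsCong (FreeGroup (Fin n)) N → ∀ x : ℕ,
        cong (FreeGroup (Fin n)) x ≤ noncong (FreeGroup (Fin n)) (N.index * x) *
          (((N.index * x) ^ Nat.log 2 N.index : ℕ) : ℕ∞)) ∧
    ((∀ N : Subgroup (MulAut (FreeGroup (Fin n))),
        N.Normal → N.FiniteIndex →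
        (∀ g : FreeGroup (Fin n), MulAut.conj g ∈ N) →
        ∃ K : Subgroup (FreeGroup (Fin n)),
          K.Characteristic ∧ K.FiniteIndex ∧
          ∀ ψ : MulAut (FreeGroup (Fin n)),
            (∃ g : FreeGroup (Fin n), ∀ x : FreeGroup (Fin n),
                ψ x * (g * x * g⁻¹)⁻¹ ∈ K) → ψ ∈ N) ↔
      ∀ d : ℕ, 1 ≤ d → ∃ x : ℕ, noncong (FreeGroup (Fin n)) (d * x) *
        (((d * x) ^ Nat.log 2 d : ℕ) : ℕ∞) < cong (FreeGroup (Fin n)) x) :=
  ⟨fun _ hI hN hNP x => many_aut hI hN hNP x, normal_iff.trans iff_aut⟩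

end Pool.Agent.Results.MP_181555_al.FewNoncongruence
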