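import Pool.Agent.Q98.CG.Aut

/-!
# MP_59b15d_al: all subgroups are congruence subgroups or not too few are not

`c(x)` and `u(x)` are the numbers of congruence and of noncongruence subgroups of index at most `x`
of the extended mapping class group `Out(π_1(S_g))`.
-/

set_option autoImplicit false

namespace Pool.Agent.Results.MP_59b15d_al.FewNoncongruence

open Pool.Agent.Q98.CG

/-- the fundamental group of the closed orientable surface of genus `g` -/
abbrev Surface (g : ℕ) : Type := PresentedGroup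
  ({(List.ofFn (fun i : Fin g =>
      FreeGroup.of (Sum.inl i : Fin g ⊕ Fin g) *
      FreeGroup.of (Sum.inr i : Fin g ⊕ Fin g) *
      (FreeGroup.of (Sum.inl i : Fin g ⊕ Fin g))⁻¹ *
      (FreeGroup.of (Sum.inr i : Fin g ⊕ Fin g))⁻¹)).prod} :
    Set (FreeGroup (Fin g ⊕ Fin g)))

/-- (1) If `Mod = Out(π_1(S_g))` has a noncongruence subgroup of index `d`, then
`c(x) ≤ u(d x) (d x) ^ ⌊log₂ d⌋` for all `x`. (2) The congruence subgroup property for `Mod`
(as in Q1) holds if and only if for every `d ≥ 1` there is an `x` with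
`u(d x) (d x) ^ ⌊log₂ d⌋ < c(x)`. -/
theorem result (g : ℕ) :
    (∀ N : Subgroup (MulAut (Surface g)), (∀ x, MulAut.conj x ∈ N) → N.index ≠ 0 →
      ¬ IsCong (Surface g) N → ∀ x : ℕ,
        cong (Surface g) x ≤ noncong (Surface g) (N.index * x) *
          (((N.index * x) ^ Nat.log 2 N.index : ℕ) : ℕ∞)) ∧
    ((∀ H : Subgroup (MulAut (Surface g)), H.FiniteIndex → (∀ x, MulAut.conj x ∈ H) →
        ∃ K : Subgroup (Surface g), K.Characteristic ∧ K.FiniteIndex ∧
          ∀ φ : MulAut (Surface g),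
            (∃ h : Surface g, ∀ x : Surface g, φ x * (h * x * h⁻¹)⁻¹ ∈ K) → φ ∈ H) ↔
      ∀ d : ℕ, 1 ≤ d → ∃ x : ℕ, noncong (Surface g) (d * x) *
        (((d * x) ^ Nat.log 2 d : ℕ) : ℕ∞) < cong (Surface g) x) :=
  ⟨fun _ hI hN hNP x => many_aut hI hN hNP x, iff_aut⟩

end Pool.Agent.Results.MP_59b15d_al.FewNoncongruence
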